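import Pool.Agent.Helper4.T7.StD

/-!
# Project T7 (levels `7 * 5^n`), module Stp: the operators on symbols and their rows

Adapted from `Pool/Agent/Helper1/TH7/M_Stp.lean` and `Pool/Agent/Helper51/TK/M_Itr.lean`.
-/

set_option autoImplicit false

namespace Pool.Agent.Helper63.T7

open Pool.Agent.Helper4.T7
open Pool.Agent.Helper14.CV (Homog EqC act Tl)
open Pool.Agent.Helper14.W5 (tr5 Fn5 Tm opL op5 mulL mulT sclL Gd rY5 S5Trm)
open Pool.Agent.Helper28.T7 (HTy SymH)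

section lists

variable {q q' : ℕ}

private theorem opL_nil : (opL [] : Module.End (ZMod 5) (Fn5 q q')) = 0 := rfl

private theorem opL_cons (t : Tm) (L : List Tm) : (opL (t :: L) : Module.End (ZMod 5) (Fn5 q q')) =
    ((t.1 : ℤ) : ZMod 5) • op5 t.2.1 t.2.2.1 t.2.2.2.1 t.2.2.2.2 + opL L := by
  unfold opL
  rw [List.map_cons, List.sum_cons]

private theorem opL_append (L L' : List Tm) :
    (opL (L ++ L') : Module.End (ZMod 5) (Fn5 q q')) = opL L + opL L' := by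
  unfold opL
  rw [List.map_append, List.sum_append]

private theorem opL_scl (n : ℤ) (L : List Tm) :
    (opL (sclL n L) : Module.End (ZMod 5) (Fn5 q q')) = ((n : ℤ) : ZMod 5) • opL L := by
  induction L with
  | nil => rw [show sclL n [] = [] from rfl, opL_nil, smul_zero]
  | cons t L ih =>
    rw [show sclL n (t :: L) = (n * t.1, t.2) :: sclL n L from rfl, opL_cons, opL_cons, ih, smul_add, smul_smul]
    push_cast
    rfl

end lists

private theorem ndvd {a : ℤ} (h : a % 5 ≠ 0) : ¬ 5 ∣ a := fun h' => h (Int.emod_eq_zero_of_dvd h')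

private theorem op5_mul (hT : S5Trm) {r s : ℕ} {t t' : Tm} (h : Gd t) (h' : Gd t') :
    (op5 t.2.1 t.2.2.1 t.2.2.2.1 t.2.2.2.2 * op5 t'.2.1 t'.2.2.1 t'.2.2.2.1 t'.2.2.2.2 :
      Module.End (ZMod 5) (Fn5 (5 ^ r) (5 ^ s))) =
    op5 (mulT t t').2.1 (mulT t t').2.2.1 (mulT t t').2.2.2.1 (mulT t t').2.2.2.2 := by
  apply LinearMap.ext
  intro F
  exact (hT (ZMod 5) r s F).1 t.2.1 t.2.2.1 t.2.2.2.1 t.2.2.2.2 t'.2.1 t'.2.2.1 t'.2.2.2.1 t'.2.2.2.2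
    (ndvd h.1) (ndvd h.2) (ndvd h'.1) (ndvd h'.2)

private theorem opL_mulT (hT : S5Trm) {r s : ℕ} {t : Tm} (h : Gd t) (L' : List Tm) (h' : ∀ t' ∈ L', Gd t') :
    (opL (L'.map fun t' => mulT t t') : Module.End (ZMod 5) (Fn5 (5 ^ r) (5 ^ s))) =
    (((t.1 : ℤ) : ZMod 5) • op5 t.2.1 t.2.2.1 t.2.2.2.1 t.2.2.2.2) * opL L' := by
  induction L' with
  | nil => rw [List.map_nil, opL_nil, mul_zero]
  | cons a L' ih =>
    rw [List.map_cons, opL_cons, opL_cons, ih (fun t' ht' => h' t' (List.mem_cons_of_mem _ ht')), mul_add,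
      smul_mul_smul_comm, op5_mul hT h (h' a List.mem_cons_self)]
    have e : (((mulT t a).1 : ℤ) : ZMod 5) = ((t.1 : ℤ) : ZMod 5) * ((a.1 : ℤ) : ZMod 5) := by
      unfold mulT
      push_cast
      rfl
    rw [e]

private theorem opL_mul (hT : S5Trm) {r s : ℕ} (L L' : List Tm) (h : ∀ t ∈ L, Gd t) (h' : ∀ t' ∈ L', Gd t') :
    (opL (mulL L L') : Module.End (ZMod 5) (Fn5 (5 ^ r) (5 ^ s))) = opL L * opL L' := by
  induction L with
  | nil => exact (zero_mul _).symm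
  | cons a L ih =>
    have e : mulL (a :: L) L' = (L'.map fun t' => mulT a t') ++ mulL L L' := rfl
    rw [e, opL_append, opL_mulT hT (h a List.mem_cons_self) L' h', ih (fun t ht => h t (List.mem_cons_of_mem _ ht)),
      opL_cons, add_mul]

private theorem emod_mul_ne {a b c : ℤ} (ha : a % 5 ≠ 0) (hb : b % 5 ≠ 0) : (a * b + 5 * c) % 5 ≠ 0 := by
  intro h
  have h1 : (5 : ℤ) ∣ a * b := by
    have h2 : (5 : ℤ) ∣ a * b + 5 * c := Int.dvd_of_emod_eq_zero h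
    exact (Int.dvd_add_left (Dvd.intro _ rfl)).1 h2
  have h5 : Prime (5 : ℤ) := by norm_num
  rcases h5.dvd_or_dvd h1 with h2 | h2
  · exact ha (Int.emod_eq_zero_of_dvd h2)
  · exact hb (Int.emod_eq_zero_of_dvd h2)

private theorem gd_mulT {t t' : Tm} (h : Gd t) (h' : Gd t') : Gd (mulT t t') := by
  refine ⟨?_, ?_⟩
  · have e : (mulT t t').2.1 = t.2.1 * t'.2.1 + 5 * (t.2.2.1 * t'.2.2.2.1) := by
      unfold mulT
      ring
    rw [e]
    exact emod_mul_ne h.1 h'.1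
  · have e : (mulT t t').2.2.2.2 = t.2.2.2.2 * t'.2.2.2.2 + 5 * (t.2.2.2.1 * t'.2.2.1) := by
      unfold mulT
      ring
    rw [e]
    exact emod_mul_ne h.2 h'.2

private theorem gd_mul {L L' : List Tm} (h : ∀ t ∈ L, Gd t) (h' : ∀ t' ∈ L', Gd t') :
    ∀ t ∈ mulL L L', Gd t := by
  intro t ht
  unfold mulL at ht
  obtain ⟨a, ha, hc⟩ := List.mem_flatMap.1 ht
  obtain ⟨b, hd, rfl⟩ := List.mem_map.1 hc
  exact gd_mulT (h a ha) (h' b hd)

/-- Sum of two matrices of lists. -/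
private def ad5 (A B : Fin 5 → Fin 5 → List Tm) (i f : Fin 5) : List Tm := A i f ++ B i f

/-- `n` times a matrix of lists. -/
private def sm5 (n : ℤ) (A : Fin 5 → Fin 5 → List Tm) (i f : Fin 5) : List Tm := sclL n (A i f)

/-- All entries of a matrix of lists are good. -/
private def GG (A : Fin 5 → Fin 5 → List Tm) : Prop := ∀ i f, ∀ t ∈ A i f, Gd t

/-- The operator `Φ` preserves symbols and has the rows `A`. -/
private def Rw (r s : ℕ) (Φ : (ℤ → ℤ → ZMod 5) → (ℤ → ℤ → ZMod 5)) (A : Fin 5 → Fin 5 → List Tm) : Prop :=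
  GG A ∧ ∀ G, SymH 5 r (s + 1) G → SymH 5 r (s + 1) (Φ G) ∧
    ∀ i, (pfQ (Φ G) i : Fn5 (5 ^ r) (5 ^ s)) = ∑ f : Fin 5, opL (A i f) (pfQ G f)

private lemma gg_id (c : ℤ) : GG (id5 c) := by
  intro i f t ht
  unfold id5 at ht
  split_ifs at ht
  · rw [List.mem_singleton] at ht
    subst ht
    exact ⟨by norm_num, by norm_num⟩
  · simp at ht

private lemma gg_ad {A B : Fin 5 → Fin 5 → List Tm} (hA : GG A) (hB : GG B) : GG (ad5 A B) := by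
  intro i f t ht
  unfold ad5 at ht
  rcases List.mem_append.1 ht with h | h
  · exact hA i f t h
  · exact hB i f t h

private lemma gg_sm (n : ℤ) {A : Fin 5 → Fin 5 → List Tm} (hA : GG A) : GG (sm5 n A) := by
  intro i f t ht
  unfold sm5 sclL at ht
  obtain ⟨u, hu, rfl⟩ := List.mem_map.1 ht
  exact hA i f u hu

private lemma gg_mm {A B : Fin 5 → Fin 5 → List Tm} (hA : GG A) (hB : GG B) : GG (mm5 A B) := by
  intro i f t ht
  unfold mm5 at ht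
  rcases List.mem_append.1 ht with h | h
  · rcases List.mem_append.1 h with h | h
    · rcases List.mem_append.1 h with h | h
      · rcases List.mem_append.1 h with h | h
        · exact gd_mul (hA i 0) (hB 0 f) t h
        · exact gd_mul (hA i 1) (hB 1 f) t h
      · exact gd_mul (hA i 2) (hB 2 f) t h
    · exact gd_mul (hA i 3) (hB 3 f) t h
  · exact gd_mul (hA i 4) (hB 4 f) t h

section

variable {r s : ℕ}

private lemma pf_add (G H : ℤ → ℤ → ZMod 5) (i : Fin 5) :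
    (pfQ (G + H) i : Fn5 (5 ^ r) (5 ^ s)) = pfQ G i + pfQ H i := by
  funext x y
  simp only [pfQ, edgeQ, Pi.add_apply]
  ring

private lemma pf_smul (n : ℤ) (G : ℤ → ℤ → ZMod 5) (i : Fin 5) :
    (pfQ (n • G) i : Fn5 (5 ^ r) (5 ^ s)) = ((n : ℤ) : ZMod 5) • pfQ G i := by
  funext x y
  simp only [pfQ, edgeQ, Pi.smul_apply, smul_eq_mul, zsmul_eq_mul]
  ring

private lemma rw_ad {Φ Ψ : (ℤ → ℤ → ZMod 5) → (ℤ → ℤ → ZMod 5)}
    {A B : Fin 5 → Fin 5 → List Tm} (hA : Rw r s Φ A) (hB : Rw r s Ψ B) :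
    Rw r s (fun G => Φ G + Ψ G) (ad5 A B) := by
  refine ⟨gg_ad hA.1 hB.1, fun G hG => ?_⟩
  obtain ⟨a1, a2⟩ := hA.2 G hG
  obtain ⟨b1, b2⟩ := hB.2 G hG
  refine ⟨SymH.add a1 b1, fun i => ?_⟩
  rw [pf_add, a2, b2]
  simp only [ad5, opL_append, LinearMap.add_apply, Finset.sum_add_distrib]

private lemma rw_sm (n : ℤ) {Φ : (ℤ → ℤ → ZMod 5) → (ℤ → ℤ → ZMod 5)}
    {A : Fin 5 → Fin 5 → List Tm} (hA : Rw r s Φ A) :
    Rw r s (fun G => n • Φ G) (sm5 n A) := by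
  refine ⟨gg_sm n hA.1, fun G hG => ?_⟩
  obtain ⟨a1, a2⟩ := hA.2 G hG
  refine ⟨SymH.smul n a1, fun i => ?_⟩
  rw [pf_smul, a2]
  simp only [sm5, opL_scl, LinearMap.smul_apply, Finset.smul_sum]

private lemma rw_mm (hT : S5Trm) {Φ Ψ : (ℤ → ℤ → ZMod 5) → (ℤ → ℤ → ZMod 5)}
    {A B : Fin 5 → Fin 5 → List Tm} (hA : Rw r s Φ A) (hB : Rw r s Ψ B) :
    Rw r s (fun G => Φ (Ψ G)) (mm5 A B) := by
  refine ⟨gg_mm hA.1 hB.1, fun G hG => ?_⟩
  obtain ⟨b1, b2⟩ := hB.2 G hG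
  obtain ⟨a1, a2⟩ := hA.2 _ b1
  refine ⟨a1, fun i => ?_⟩
  have hmul : ∀ g f : Fin 5, (opL (mulL (A i g) (B g f)) : Module.End (ZMod 5) (Fn5 (5 ^ r) (5 ^ s))) =
      opL (A i g) * opL (B g f) := fun g f => opL_mul hT _ _ (hA.1 i g) (hB.1 g f)
  have h1 : ∀ f : Fin 5, (opL (mm5 A B i f) : Module.End (ZMod 5) (Fn5 (5 ^ r) (5 ^ s))) =
      ∑ g : Fin 5, opL (A i g) * opL (B g f) := by
    intro f
    simp only [mm5, opL_append, hmul, Fin.sum_univ_five]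
  rw [a2]
  simp only [b2, h1, LinearMap.sum_apply, Module.End.mul_apply, map_sum]
  exact Finset.sum_comm

private lemma op_one (F : Fn5 (5 ^ r) (5 ^ s)) : op5 1 0 0 1 F = F := by
  funext x y
  show F _ _ = F x y
  simp

private lemma rw_id (c : ℤ) : Rw r s (fun G => c • G) (id5 c) := by
  refine ⟨gg_id c, fun G hG => ⟨SymH.smul c hG, fun i => ?_⟩⟩
  rw [pf_smul]
  have h1 : ∀ f, (opL (id5 c f f) : Module.End (ZMod 5) (Fn5 (5 ^ r) (5 ^ s))) (pfQ G f) =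
      ((c : ℤ) : ZMod 5) • pfQ G f := by
    intro f
    rw [show id5 c f f = [(c, 1, 0, 0, 1)] from if_pos rfl]
    rw [opL_cons, opL_nil, add_zero, LinearMap.smul_apply, op_one]
  have h2 : ∀ f g, f ≠ g → (opL (id5 c f g) : Module.End (ZMod 5) (Fn5 (5 ^ r) (5 ^ s))) (pfQ G g) = 0 := by
    intro f g hfg
    rw [show id5 c f g = [] from if_neg hfg]
    rfl
  rw [Finset.sum_eq_single i (fun g _ hg => h2 i g (Ne.symm hg)) (fun h => absurd (Finset.mem_univ i) h), h1]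

private lemma rw_id1 : Rw r s (fun G => G) (id5 1) := by
  obtain ⟨h1, h2⟩ := rw_id (r := r) (s := s) 1
  refine ⟨h1, fun G hG => ?_⟩
  have h3 := h2 G hG
  simp only [one_smul] at h3
  exact h3

private lemma pf_zero (H : ℤ → ℤ → ZMod 5) : (pfQ H 0 : Fn5 (5 ^ r) (5 ^ s)) 0 0 = H 1 0 - H 0 1 := by
  have hY : yQ (0 : ZMod (5 ^ r)) (0 : ZMod (5 ^ s)) = 0 := by
    unfold yQ rY5
    simp
  unfold pfQ edgeQ
  rw [hY]
  simp [u1Q, u2Q, v1Q, v2Q]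

end

theorem hStp (hb : THkB) (h2 : THkL 2 T2Q) (h3 : THkL 3 T3Q) (h11 : THkL 11 T11Q) (h13 : THkL 13 T13Q)
    (h17 : THkL 17 T17Q) (h19 : THkL 19 T19Q) (h23 : THkL 23 T23Q) (h31 : THkL 31 T31Q)
    (h37 : THkL 37 T37Q) (h41 : THkL 41 T41Q) (h43 : THkL 43 T43Q) (ht : S5Trm) (hg : TCeG)
    (hp : TPlQ) : TStp := by
  intro r s G hG
  have _ := hp
  have hl : ∀ (l : ℕ) (T : Fin 5 → Fin 5 → List Tm), l.Prime → l ≠ 5 → l ≠ 7 → THkL l T → GG T →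
      Rw r s (Tl l (5 ^ r)) T := fun l T hp h5 h7 hT hg => ⟨hg, fun G hG =>
    ⟨(hb (ZMod 5) _ r (s + 1) l G hp h5 h7 hG).1, hT r s G hG⟩⟩
  have r2 := hl 2 T2Q (by norm_num) (by norm_num) (by norm_num) h2 (fun i f => (hg.1 i f).1)
  have r3 := hl 3 T3Q (by norm_num) (by norm_num) (by norm_num) h3 (fun i f => (hg.1 i f).2.1)
  have r11 := hl 11 T11Q (by norm_num) (by norm_num) (by norm_num) h11 (fun i f => (hg.1 i f).2.2.1)
  have r13 := hl 13 T13Q (by norm_num) (by norm_num) (by norm_num) h13 (fun i f => (hg.1 i f).2.2.2.1)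
  have r17 := hl 17 T17Q (by norm_num) (by norm_num) (by norm_num) h17 (fun i f => (hg.1 i f).2.2.2.2.1)
  have r19 := hl 19 T19Q (by norm_num) (by norm_num) (by norm_num) h19
    (fun i f => (hg.1 i f).2.2.2.2.2.1)
  have r23 := hl 23 T23Q (by norm_num) (by norm_num) (by norm_num) h23
    (fun i f => (hg.1 i f).2.2.2.2.2.2.1)
  have r31 := hl 31 T31Q (by norm_num) (by norm_num) (by norm_num) h31
    (fun i f => (hg.1 i f).2.2.2.2.2.2.2.1)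
  have r37 := hl 37 T37Q (by norm_num) (by norm_num) (by norm_num) h37
    (fun i f => (hg.1 i f).2.2.2.2.2.2.2.2.1)
  have r41 := hl 41 T41Q (by norm_num) (by norm_num) (by norm_num) h41
    (fun i f => (hg.1 i f).2.2.2.2.2.2.2.2.2.1)
  have r43 := hl 43 T43Q (by norm_num) (by norm_num) (by norm_num) h43
    (fun i f => (hg.1 i f).2.2.2.2.2.2.2.2.2.2)
  have rC : Rw r s (fun G => (3 : ℤ) • Tl 3 (5 ^ r) G + (3 : ℤ) • Tl 13 (5 ^ r) G) CLQ :=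
    rw_ad (rw_sm 3 r3) (rw_sm 3 r13)
  have rU : Rw r s (UoQ (5 ^ r)) ULQ :=
    rw_ad (rw_ad (rw_ad (rw_ad (rw_ad (rw_ad (rw_ad (rw_id (r := r) (s := s) 3) (rw_sm 3 r2)) r3) r11)
      (rw_sm 3 r17)) (rw_sm 2 r23)) (rw_mm ht r2 rC)) (rw_sm 3 (rw_mm ht r3 r3))
  have rA : Rw r s (AoQ (5 ^ r)) ALQ :=
    rw_ad (rw_ad (rw_ad (rw_ad (rw_ad (rw_ad (rw_ad (rw_ad (rw_sm 3 r2) (rw_sm 2 r3)) r13)
      (rw_sm 4 r17)) (rw_sm 2 r19)) (rw_sm 3 r23)) (rw_sm 2 r31)) (rw_sm 3 r37)) (rw_mm ht r3 r3)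
  have rB : Rw r s (BoQ (5 ^ r)) BLQ :=
    rw_ad (rw_ad (rw_ad (rw_ad (rw_ad (rw_ad (rw_sm 4 r3) (rw_sm 2 r11)) (rw_sm 4 r13)) (rw_sm 4 r17))
      (rw_sm 3 r19)) (rw_sm 4 r23)) (rw_sm 3 (rw_mm ht r3 r3))
  have rV : Rw r s (VoQ (5 ^ r)) VLQ :=
    rw_ad (rw_ad (rw_ad (rw_ad (rw_ad (rw_ad (rw_ad (rw_ad (rw_ad (rw_id (r := r) (s := s) 3)
      (rw_sm 2 r11)) (rw_sm 3 r19)) (rw_sm 3 r23)) r31) r37) (rw_sm 2 r41)) (rw_sm 3 r43))
      (rw_mm ht r2 rA)) (rw_mm ht r3 rB)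
  refine ⟨rU.2 G hG, rV.2 G hG, fun c => ?_, fun H => pf_zero H⟩
  have q0 := (rw_id1 (r := r) (s := s)).2 G hG
  have q1 := (rw_ad (rw_ad (rw_id1 (r := r) (s := s)) r2) (rw_sm 4 r3)).2 G hG
  have q2 := (rw_ad (rw_id (r := r) (s := s) 3) (rw_sm 4 r2)).2 G hG
  have q3 := (rw_ad (rw_sm 2 r3) (rw_sm 3 (rw_mm ht r2 r2))).2 G hG
  have q4 := (rw_ad (rw_ad (rw_ad (rw_id (r := r) (s := s) 3) (rw_sm 3 r2)) (rw_sm 4 r3)) r11).2 G hG
  have q5 := (rw_ad (rw_ad (rw_ad (rw_ad (rw_ad (rw_ad (rw_id1 (r := r) (s := s)) (rw_sm 3 r2))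
    (rw_sm 3 r3)) r11) r13) (rw_sm 2 r31)) (rw_sm 2 (rw_mm ht r2 r2))).2 G hG
  have q6 := (rw_ad (rw_ad (rw_ad (rw_ad (rw_ad (rw_ad (rw_ad (rw_ad (rw_ad (rw_ad
    (rw_id (r := r) (s := s) 3) (rw_sm 2 r2)) r3) r11) (rw_sm 4 r13)) (rw_sm 3 r23)) r31)
    (rw_sm 4 r37)) (rw_sm 2 (rw_mm ht r2 r2))) (rw_sm 4 (rw_mm ht r2 r3)))
    (rw_sm 2 (rw_mm ht r3 r3))).2 G hG
  have q7 := (rw_ad (rw_ad (rw_ad (rw_ad (rw_ad (rw_ad (rw_ad (rw_ad (rw_ad r2 (rw_sm 2 r3))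
    (rw_sm 3 r11)) r13) (rw_sm 2 r17)) (rw_sm 2 r19)) r23) (rw_sm 3 r31))
    (rw_sm 3 (rw_mm ht r2 r3))) (rw_sm 2 (rw_mm ht r3 r3))).2 G hG
  fin_cases c
  · exact q0.2 0
  · exact q1.2 0
  · exact q2.2 0
  · exact q3.2 0
  · exact q4.2 0
  · exact q5.2 0
  · exact q6.2 0
  · exact q7.2 0

end Pool.Agent.Helper63.T7
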